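import Pool.Agent.Y825.EV.Many

/-! How many numbers of variables have functions of polynomially small complexity. -/

set_option autoImplicit false

namespace Pool.Agent.Y825.EV

open Filter

theorem density (m : ℕ) (hm : 2 ≤ m) (h : ∀ r j : ℕ, 1 ≤ r → Shallow (r * m ^ j) (r * (m - 1) ^ j))
    (δ : ℝ) (hδ0 : 0 < δ) (hδ1 : δ < 1) : ∃ ε : ℝ, 0 < ε ∧ ∀ᶠ x : ℕ in atTop,
      (x : ℝ) ^ δ ≤ ({n : ℕ | n ≤ x ∧ ∃ k : ℕ, Shallow n k ∧ (k : ℝ) < (n : ℝ) ^ (1 - ε)}.ncard : ℝ) := by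
  have hmR : (2 : ℝ) ≤ m := by exact_mod_cast hm
  have hm0 : (0 : ℝ) < m := by linarith
  have hm1 : (0 : ℝ) < (m : ℝ) - 1 := by linarith
  set θ : ℝ := (1 - δ) / 2 with hθ
  have hθ0 : 0 < θ := by rw [hθ]; linarith
  have hlogm : 0 < Real.log m := Real.log_pos (by linarith)
  set γ : ℝ := (Real.log m - Real.log ((m : ℝ) - 1)) / Real.log m with hγ
  have hγ0 : 0 < γ := div_pos (sub_pos.2 (Real.log_lt_log hm1 (by linarith))) hlogm
  -- `m - 1 = m ^ (1 - γ)`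
  have hpow : (m : ℝ) - 1 = (m : ℝ) ^ (1 - γ) := by
    rw [Real.rpow_def_of_pos hm0]
    have : Real.log m * (1 - γ) = Real.log ((m : ℝ) - 1) := by
      rw [hγ]
      field_simp
      ring
    rw [this, Real.exp_log hm1]
  refine ⟨θ * γ / 2, by positivity, ?_⟩
  have ht : Tendsto (fun x : ℕ => (x : ℝ) ^ θ) atTop atTop :=
    (tendsto_rpow_atTop hθ0).comp tendsto_natCast_atTop_atTop
  filter_upwards [ht.eventually_ge_atTop (2 * (m : ℝ)), eventually_ge_atTop 2] with x hx hx2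
  have hxR : (2 : ℝ) ≤ x := by exact_mod_cast hx2
  have hx0 : (0 : ℝ) < x := by linarith
  obtain ⟨a, ha1, ha2⟩ := exists_nat_pow_near (x := (x : ℝ) ^ θ) (y := (m : ℝ)) (by linarith)
    (by linarith)
  set j := a + 1 with hj
  have hmj : (0 : ℝ) < (m : ℝ) ^ j := by positivity
  have hub : (m : ℝ) ^ j ≤ m * (x : ℝ) ^ θ := by
    rw [hj, pow_succ, mul_comm]
    exact mul_le_mul_of_nonneg_left ha1 hm0.le
  set R := x / m ^ j with hR
  -- the count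
  have hRlow : (x : ℝ) ^ δ ≤ (R : ℝ) := by
    have h1 : (x : ℝ) / (m : ℝ) ^ j - 1 < R := by
      have h2 : x < (x / m ^ j + 1) * m ^ j := by
        have := Nat.lt_div_mul_add (a := x) (b := m ^ j) (by positivity)
        nlinarith
      have h3 : (x : ℝ) < ((x / m ^ j : ℕ) + 1) * (m : ℝ) ^ j := by exact_mod_cast h2
      have h4 : (x : ℝ) / (m : ℝ) ^ j < (x / m ^ j : ℕ) + 1 := by
        rw [div_lt_iff₀ hmj]
        exact h3
      rw [hR]
      linarith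
    have h2 : (x : ℝ) ^ (δ + θ) / m ≤ (x : ℝ) / (m : ℝ) ^ j := by
      rw [div_le_div_iff₀ hm0 hmj]
      calc (x : ℝ) ^ (δ + θ) * (m : ℝ) ^ j ≤ (x : ℝ) ^ (δ + θ) * (m * (x : ℝ) ^ θ) := by
            gcongr
        _ = (x : ℝ) ^ (δ + θ + θ) * m := by
            rw [Real.rpow_add hx0 (δ + θ) θ]
            ring
        _ = x * m := by
            have : δ + θ + θ = 1 := by rw [hθ]; ring
            rw [this, Real.rpow_one]
    have h3 : (x : ℝ) ^ δ * 2 ≤ (x : ℝ) ^ (δ + θ) / m := by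
      rw [le_div_iff₀ hm0, Real.rpow_add hx0]
      have : (0 : ℝ) < (x : ℝ) ^ δ := by positivity
      nlinarith
    have h4 : (1 : ℝ) ≤ (x : ℝ) ^ δ := Real.one_le_rpow (by linarith) hδ0.le
    linarith
  refine hRlow.trans ?_
  have hinj : Set.InjOn (fun r : ℕ => r * m ^ j) (Finset.Icc 1 R : Finset ℕ) := by
    intro r _ s _ hrs
    exact Nat.eq_of_mul_eq_mul_right (by positivity) hrs
  have hcard : ((Finset.Icc 1 R).image fun r : ℕ => r * m ^ j).card = R := by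
    rw [Finset.card_image_of_injOn hinj, Nat.card_Icc, Nat.add_sub_cancel]
  have hsub : (((Finset.Icc 1 R).image fun r : ℕ => r * m ^ j : Finset ℕ) : Set ℕ) ⊆
      {n : ℕ | n ≤ x ∧ ∃ k : ℕ, Shallow n k ∧ (k : ℝ) < (n : ℝ) ^ (1 - θ * γ / 2)} := by
    intro n hn
    rw [Finset.mem_coe, Finset.mem_image] at hn
    obtain ⟨r, hr, rfl⟩ := hn
    rw [Finset.mem_Icc] at hr
    have hnx : r * m ^ j ≤ x := (Nat.mul_le_mul_right _ hr.2).trans (Nat.div_mul_le_self _ _)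
    refine ⟨hnx, r * (m - 1) ^ j, h r j hr.1, ?_⟩
    have hr0 : (1 : ℝ) ≤ r := by exact_mod_cast hr.1
    have hmj2 : (2 : ℝ) ≤ (m : ℝ) ^ j := by linarith [ha2.le]
    have hn1 : (1 : ℝ) < (r : ℝ) * (m : ℝ) ^ j := by nlinarith
    have hn0 : (0 : ℝ) < (r : ℝ) * (m : ℝ) ^ j := by linarith
    have hcast : ((r * (m - 1) ^ j : ℕ) : ℝ) = r * ((m : ℝ) - 1) ^ j := by
      rw [Nat.cast_mul, Nat.cast_pow, Nat.cast_sub (by omega), Nat.cast_one]
    have hcast2 : ((r * m ^ j : ℕ) : ℝ) = r * (m : ℝ) ^ j := by push_cast; ring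
    rw [hcast, hcast2]
    have e1 : (r : ℝ) * ((m : ℝ) - 1) ^ j = (r * (m : ℝ) ^ j) * ((m : ℝ) ^ j) ^ (-γ) := by
      rw [hpow, ← Real.rpow_natCast, ← Real.rpow_mul hm0.le, ← Real.rpow_natCast (m : ℝ) j,
        ← Real.rpow_mul hm0.le, mul_assoc, ← Real.rpow_add hm0]
      congr 2
      ring
    have e2 : ((m : ℝ) ^ j) ^ (-γ) ≤ ((x : ℝ) ^ θ) ^ (-γ) :=
      Real.rpow_le_rpow_of_nonpos (by positivity) ha2.le (by linarith)
    have e3 : ((x : ℝ) ^ θ) ^ (-γ) ≤ (r * (m : ℝ) ^ j) ^ (-(θ * γ)) := by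
      rw [← Real.rpow_mul hx0.le, mul_neg]
      apply Real.rpow_le_rpow_of_nonpos hn0 _ (by nlinarith [mul_pos hθ0 hγ0])
      rw [← hcast2]
      exact_mod_cast hnx
    rw [e1]
    calc (r * (m : ℝ) ^ j) * ((m : ℝ) ^ j) ^ (-γ) ≤
          (r * (m : ℝ) ^ j) * (r * (m : ℝ) ^ j) ^ (-(θ * γ)) :=
          mul_le_mul_of_nonneg_left (e2.trans e3) hn0.le
      _ = (r * (m : ℝ) ^ j) ^ (1 + -(θ * γ)) := by rw [Real.rpow_add hn0, Real.rpow_one]
      _ < (r * (m : ℝ) ^ j) ^ (1 - θ * γ / 2) := by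
          apply Real.rpow_lt_rpow_of_exponent_lt hn1
          nlinarith [mul_pos hθ0 hγ0]
  have hfin : {n : ℕ | n ≤ x ∧ ∃ k : ℕ, Shallow n k ∧
      (k : ℝ) < (n : ℝ) ^ (1 - θ * γ / 2)}.Finite :=
    (Set.finite_Iic x).subset fun n hn => hn.1
  have := Set.ncard_le_ncard hsub hfin
  rw [Set.ncard_coe_finset, hcard] at this
  exact_mod_cast this

end Pool.Agent.Y825.EV
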