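import Pool.Agent.H571R3.Asm

/-! Monotone transitive functions of small decision tree complexity, for many numbers of
variables. -/

set_option autoImplicit false

namespace Pool.Agent.Y825.EV

open Pool.Agent.H128R2.Evas

/-- There is a non-constant monotone transitive Boolean function of `n` variables which is computed
by a deterministic decision tree of depth at most `k`, i.e. `D(f) ≤ k`. -/
def Shallow (n k : ℕ) : Prop :=
  ∃ f : (Fin n → Bool) → Bool, Monotone f ∧ (∃ x y, f x ≠ f y) ∧
    (∀ i j : Fin n, ∃ σ : Equiv.Perm (Fin n), σ i = j ∧ ∀ x : Fin n → Bool, f (x ∘ σ) = f x) ∧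
    ∃ T : DT (Fin n), (∀ x, T.eval x = f x) ∧ T.depth ≤ k

/-- the tree for the disjunction of the variables in a list -/
def orTree {V : Type} : List V → DT V
  | [] => .leaf false
  | v :: l => .node v (orTree l) (.leaf true)

theorem eval_orTree {V : Type} (l : List V) (x : V → Bool) :
    (orTree l).eval x = l.any x := by
  induction l with
  | nil => rfl
  | cons v l ih =>
    simp only [orTree, DT.eval, ih, List.any_cons]
    cases x v <;> simp

theorem depth_orTree {V : Type} (l : List V) : (orTree l).depth = l.length := by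
  induction l with
  | nil => rfl
  | cons v l ih => simp [orTree, DT.depth, ih]

/-- Transport along a bijection. -/
theorem shallow_of_type {W : Type} [Fintype W] {n k : ℕ} (hn : Fintype.card W = n)
    (f : (W → Bool) → Bool) (hm : Monotone f) (hnc : ∃ x y, f x ≠ f y)
    (htr : ∀ i j : W, ∃ σ : Equiv.Perm W, σ i = j ∧ ∀ x : W → Bool, f (x ∘ σ) = f x)
    (T : DT W) (hT : ∀ x, T.eval x = f x) (hd : T.depth ≤ k) : Shallow n k := by
  let e : W ≃ Fin n := Fintype.equivFinOfCardEq hn
  refine ⟨fun x => f (fun w => x (e w)), fun x y h => hm (fun w => h (e w)), ?_, ?_,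
    DT.map e T, fun x => ?_, ?_⟩
  · obtain ⟨x, y, h⟩ := hnc
    exact ⟨fun i => x (e.symm i), fun i => y (e.symm i), by simpa using h⟩
  · intro i j
    obtain ⟨σ, hσ, hσ'⟩ := htr (e.symm i) (e.symm j)
    refine ⟨(e.symm.trans σ).trans e, ?_, ?_⟩
    · simp [hσ]
    · intro x
      have := hσ' (fun w => x (e w))
      refine Eq.trans ?_ this
      show f _ = f _
      congr 1
      funext w
      simp
  · rw [DT.eval_map, hT]
  · rw [DT.depth_map]
    exact hd

/-- The disjunction of `r` copies of `f`. -/
def orF {W : Type} (r : ℕ) (f : (W → Bool) → Bool) (x : Fin r × W → Bool) : Bool :=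
  (List.finRange r).any fun i => f fun w => x (i, w)

theorem orF_iff {W : Type} (r : ℕ) (f : (W → Bool) → Bool) (x : Fin r × W → Bool) :
    orF r f x = true ↔ ∃ i, f (fun w => x (i, w)) = true := by
  simp [orF, List.any_eq_true]

/-- The disjunction of `r` copies. -/
theorem shallow_or {W : Type} [Fintype W] (r : ℕ) (hr : 1 ≤ r) {k : ℕ}
    (f : (W → Bool) → Bool) (hm : Monotone f)
    (h0 : f (fun _ => false) = false) (h1 : f (fun _ => true) = true)
    (htr : ∀ i j : W, ∃ σ : Equiv.Perm W, σ i = j ∧ ∀ x : W → Bool, f (x ∘ σ) = f x)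
    (T : DT W) (hT : ∀ x, T.eval x = f x) (hd : T.depth ≤ k) :
    Shallow (r * Fintype.card W) (r * k) := by
  classical
  have hg := orF_iff (W := W) r f
  refine shallow_of_type (W := Fin r × W) (by rw [Fintype.card_prod, Fintype.card_fin])
    (orF r f) ?_ ?_ ?_
    (DT.subst (fun i => DT.map (fun w => (i, w)) T) (orTree (List.finRange r))) ?_ ?_
  · intro x y hxy
    rw [Bool.le_iff_imp]
    intro h
    obtain ⟨i, hi⟩ := (hg x).1 h
    refine (hg y).2 ⟨i, ?_⟩
    have h2 := hm (show (fun w => x (i, w)) ≤ (fun w => y (i, w)) from fun w => hxy (i, w))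
    rw [hi] at h2
    exact top_le_iff.mp h2
  · refine ⟨fun _ => false, fun _ => true, ?_⟩
    intro h
    obtain ⟨i, hi⟩ := (hg (fun _ => false)).1 (h.trans ((hg (fun _ => true)).2 ⟨⟨0, by omega⟩, h1⟩))
    rw [h0] at hi
    exact Bool.false_ne_true hi
  · rintro ⟨i, v⟩ ⟨j, w⟩
    obtain ⟨σ, hσ, hσ'⟩ := htr v w
    refine ⟨Equiv.prodCongr (Equiv.swap i j) σ, ?_, ?_⟩
    · simp [hσ]
    · intro x
      rw [Bool.eq_iff_iff, hg, hg]
      constructor
      · rintro ⟨l, hl⟩
        refine ⟨Equiv.swap i j l, ?_⟩
        rw [← hσ' (fun w => x (Equiv.swap i j l, w)), ← hl]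
        rfl
      · rintro ⟨l, hl⟩
        refine ⟨Equiv.swap i j l, ?_⟩
        rw [← hσ' (fun w => x (l, w))] at hl
        rw [← hl]
        congr 1
        funext w
        simp [Function.comp]
  · intro x
    rw [DT.eval_subst, eval_orTree]
    show (List.finRange r).any _ = (List.finRange r).any _
    congr 1
    funext i
    rw [DT.eval_map, hT]
  · refine (DT.depth_subst _ k ?_ _).trans ?_
    · intro i
      rw [DT.depth_map]
      exact hd
    · rw [depth_orTree, List.length_finRange]

/-- There is `m ≥ 2` such that for all `r ≥ 1` and `j` there is a monotone transitive function of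
`r m ^ j` variables of decision tree complexity at most `r (m - 1) ^ j`. -/
theorem exists_m : ∃ m : ℕ, 2 ≤ m ∧ ∀ r j : ℕ, 1 ≤ r → Shallow (r * m ^ j) (r * (m - 1) ^ j) := by
  obtain ⟨W, hW, f, T, hm, hnc, htr, hT, hd⟩ := Pool.Agent.H571R3.Asm.exists_nonevasive
  have hdep : 1 ≤ T.depth := by
    obtain ⟨x, y, hxy⟩ := hnc
    cases T with
    | leaf b => exact absurd ((hT x).symm.trans (hT y)) hxy
    | node v t0 t1 => simp [DT.depth]
  have hf0 : f (fun _ => false) = false := by
    by_contra h
    have h' : f (fun _ => false) = true := by simpa using h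
    have hall : ∀ x, f x = true := fun x => by
      have h2 := hm (show (fun _ => false) ≤ x from fun _ => Bool.false_le _)
      rw [h'] at h2
      exact top_le_iff.mp h2
    obtain ⟨x, y, hxy⟩ := hnc
    exact hxy ((hall x).trans (hall y).symm)
  have hf1 : f (fun _ => true) = true := by
    by_contra h
    have h' : f (fun _ => true) = false := by simpa using h
    have hall : ∀ x, f x = false := fun x => by
      have h2 := hm (show x ≤ (fun _ => true) from fun _ => Bool.le_true _)
      rw [h'] at h2
      exact le_bot_iff.mp h2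
    obtain ⟨x, y, hxy⟩ := hnc
    exact hxy ((hall x).trans (hall y).symm)
  refine ⟨Fintype.card W, by omega, fun r j hr => ?_⟩
  obtain ⟨t, ht, htd⟩ := pow_tree f T hT j
  have := shallow_or (W := PV W j) r hr (k := (Fintype.card W - 1) ^ j) (pow f j) (pow_mono f hm j)
    (pow_const f false hf0 j) (pow_const f true hf1 j) (pow_trans f htr j) t ht
    (htd.trans (Nat.pow_le_pow_left (by omega) _))
  rwa [card_PV] at this

end Pool.Agent.Y825.EV
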